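import Pool.Agent.H27.L1.H68.GHY.Targets
import Pool.Agent.H27.L1.H55.GB.IN3
import Pool.Agent.H27.L1.H16.GB.EMD
import Pool.Agent.H27.L1.H16.GB.CND

/-!
Rows IND, EGD, EMD, CNV of the board ghy: wrappers.
-/

set_option autoImplicit false

namespace Pool.Agent.H27.L1.H16.GHY

open MeasureTheory Pool.Agent.H27.L1.H34.GM Pool.Agent.H27.L1.H34.GZ Pool.Agent.H27.L1.H34.GU Pool.Agent.H27.L1.H34.GA
  Pool.Agent.H27.L1.H68.GHY

theorem in3 : Pool.Agent.H27.L1.H16.GB.T_IN3D := by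
  intro m x y z d hx hy hz a b
  exact Pool.Agent.H27.L1.H55.GB.pf_IN3D m x y z d hx hy hz a b

theorem pf_IND : Pool.Agent.H27.L1.H68.GHY.T_IND := by
  intro m x y z d hx hy hz a b _
  exact in3 m x y z d hx hy hz a b

theorem pf_EGD : Pool.Agent.H27.L1.H68.GHY.T_EGD := by
  intro m c hm hc
  obtain ⟨C, hC, h⟩ := Pool.Agent.H27.L1.H16.GB.pf_EG3D in3 m c hm hc
  refine ⟨C, hC, ?_⟩
  intro d U B A Q w hd _ hU hB hA mU mB mA hQ hw a1 a2 b1 b2 b3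
  have h1 := h U B A Q w d hU hB hA mU mB mA hQ hw hd a1 a2 b1 b2 b3
  have h2 : ∀ i j, d * U i / B j = d * (U i / B j) := fun i j => mul_div_assoc _ _ _
  simp only [h2]
  exact h1

theorem pf_EMD : T_CNX → T_CNT → T_CMA → T_IDX → T_DAV → T_MUL →
    Pool.Agent.H27.L1.H68.GHY.T_EMD := by
  intro h1 h2 h3 h4 h5 h6 m hm C0 ε hC0 hε
  obtain ⟨C, K, hC, h⟩ := Pool.Agent.H27.L1.H16.GB.pf_EGMD (Pool.Agent.H27.L1.H16.GB.pf_EG3D in3) h1 h2 h3 h4 h5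
    h6 m hm C0 ε hC0 hε
  refine ⟨C, K, hC, ?_⟩
  intro d hd hd1 N hN b n a k hS ha1 ha2 Y hY hgap y hy sel vs hsel
  exact h N hN b n a k hS ha1 ha2 Y hY hgap y d hy hd hd1 sel vs hsel

theorem pf_CNV : T_CNT → T_KLI → T_IDX → Pool.Agent.H27.L1.H68.GHY.T_CNV := by
  intro h1 h2 h3 m N _ b n a k _ hN hS sel vs hsel v x hx hv
  have h := Pool.Agent.H27.L1.H16.GB.pf_CND h1 h2 h3 m N b n a k hN hS sel vs hsel 0 v x hx hv
  have h0 : ac N (0 : ZM m) x = 0 := by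
    funext i
    show ∑ j, (((0 : ZM m) i j : ℤ) : ZMod N) * x j = 0
    refine Finset.sum_eq_zero fun j _ => ?_
    rw [Matrix.zero_apply, Int.cast_zero, zero_mul]
  simp only [h0, sub_zero] at h
  exact h

end Pool.Agent.H27.L1.H16.GHY
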